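import Mathlib
import Pool.Agent.H7Sys

set_option autoImplicit false
open scoped Topology

namespace Pool.Agent.Results.MP_4abea4_an.CyclicNotHilbert

universe u v w

/-- `(X,T)` is Hilbert representable, with Hilbert spaces taken in the universe `v`: there are a
(complex) Hilbert space `H`, a unitary operator `U` on `H` and a map `α : X → H` which is a
topological embedding of `X` into `H` with its weak topology, with `α ∘ T = U ∘ α`. -/
def HilbertRepresentable (X : Type u) [TopologicalSpace X] (T : X ≃ₜ X) : Prop :=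
  ∃ (H : Type v) (_ : NormedAddCommGroup H) (_ : InnerProductSpace ℂ H) (_ : CompleteSpace H)
    (U : H ≃ₗᵢ[ℂ] H) (α : X → H),
    Topology.IsEmbedding (fun x => toWeakSpace ℂ H (α x)) ∧ ∀ x, α (T x) = U (α x)

/-- `f : ℤ → ℝ` is a Hilbert function: there are a compact Hausdorff Hilbert representable system
`(X,T)`, a point `x₀` and a continuous `F : X → ℝ` with `f n = F (T^n x₀)`. -/
def IsHilbertFunction (f : ℤ → ℝ) : Prop :=
  ∃ (X : Type u) (_ : TopologicalSpace X) (_ : CompactSpace X) (_ : T2Space X) (T : X ≃ₜ X),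
    HilbertRepresentable.{u, v} X T ∧
    ∃ (x₀ : X) (F : X → ℝ), Continuous F ∧ ∀ n : ℤ, f n = F ((T ^ n : X ≃ₜ X) x₀)

/-- The shift homeomorphism `(σ g)(m) = g (m + 1)` of `ℝ^ℤ` (product topology). -/
def sigma : (ℤ → ℝ) ≃ₜ (ℤ → ℝ) where
  toFun g m := g (m + 1)
  invFun g m := g (m - 1)
  left_inv g := by ext m; simp
  right_inv g := by ext m; simp
  continuous_toFun := by fun_prop
  continuous_invFun := by fun_prop

/-- `X_f`, the closure of the set of all translates of `f`. -/
def cyclicSet (f : ℤ → ℝ) : Set (ℤ → ℝ) :=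
  closure (Set.range fun n : ℤ => fun m : ℤ => f (m + n))

theorem mem_cyclicSet_iff (f g : ℤ → ℝ) : g ∈ cyclicSet f ↔ sigma g ∈ cyclicSet f := by
  have h : sigma '' cyclicSet f = cyclicSet f := by
    unfold cyclicSet
    rw [Homeomorph.image_closure]
    congr 1
    ext y
    constructor
    · rintro ⟨_, ⟨k, rfl⟩, rfl⟩
      refine ⟨k + 1, ?_⟩
      ext n
      change f (n + (k + 1)) = f (n + 1 + k)
      congr 1; ring
    · rintro ⟨k, rfl⟩
      refine ⟨fun n => f (n + (k - 1)), ⟨k - 1, rfl⟩, ?_⟩
      ext n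
      change f (n + 1 + (k - 1)) = f (n + k)
      congr 1; ring
  conv_rhs => rw [← h]
  exact (sigma.injective.mem_set_image).symm

/-- The shift as a homeomorphism of `X_f`. -/
def cyclicShift (f : ℤ → ℝ) : cyclicSet f ≃ₜ cyclicSet f :=
  sigma.subtype (mem_cyclicSet_iff f)

/-- The set `D = {4^k : k ≥ 0} ∪ {-4^k : k ≥ 0}`. -/
def D : Set ℤ := {n | ∃ k : ℕ, n = 4 ^ k ∨ n = -4 ^ k}

/-- The characteristic function of `D = {±4^k}` is a Hilbert function, but its cyclic system is not
Hilbert representable. -/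
theorem result :
    IsHilbertFunction.{0, 0} (Set.indicator D fun _ => (1 : ℝ)) ∧
    ¬ HilbertRepresentable.{0, w} (cyclicSet (Set.indicator D fun _ => (1 : ℝ)))
        (cyclicShift (Set.indicator D fun _ => (1 : ℝ))) := by
  have hf : (Set.indicator D fun _ => (1 : ℝ)) = H7Sys.Th H7GNS.phi := by
    ext n
    exact (H7Sys.Th_phi_DD n).symm
  rw [hf]
  constructor
  · have : CompactSpace H7Sys.XS := isCompact_iff_compactSpace.mp H7Sys.XS_compact
    let T : H7Sys.XS ≃ₜ H7Sys.XS := H7Sys.shift.subtype H7Sys.mem_XS_iff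
    obtain ⟨H, i1, i2, i3, U, f, hf1, hf2, hf3, hf4⟩ := H7Sys.XS_rep
    refine ⟨H7Sys.XS, inferInstance, this, inferInstance, T, ?_, ⟨H7GNS.phi, H7Sys.phi_mem⟩,
      fun x => H7Sys.th (x.1 0), ?_, ?_⟩
    · refine ⟨H, i1, i2, i3, U, f, ?_, fun x => hf3 x (T x) rfl⟩
      have hcont : Continuous (fun x => toWeakSpace ℂ H (f x)) := by
        apply WeakBilin.continuous_of_continuous_eval
        intro ψ
        have h1 := hf4 ((InnerProductSpace.toDual ℂ H).symm ψ)
        refine h1.congr ?_
        intro x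
        rw [InnerProductSpace.toDual_symm_apply]
        rfl
      have hinj : Function.Injective (fun x => toWeakSpace ℂ H (f x)) :=
        (toWeakSpace ℂ H).injective.comp hf1
      exact (hcont.isClosedEmbedding hinj).isEmbedding
    · exact H7Sys.th_cont.comp ((continuous_apply 0).comp continuous_subtype_val)
    · intro n
      have key : ∀ (n : ℤ) (x : H7Sys.XS) (m : ℤ), ((T ^ n : H7Sys.XS ≃ₜ H7Sys.XS) x).1 m = x.1 (m + n) := by
        intro n
        induction n using Int.induction_on with
        | zero => intro x m; simp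
        | succ k ih =>
          intro x m
          rw [zpow_add, zpow_one]
          change ((T ^ (k : ℤ)) (T x)).1 m = _
          rw [ih]
          change x.1 (m + k + 1) = x.1 (m + (k + 1))
          rw [add_assoc]
        | pred k ih =>
          intro x m
          rw [zpow_sub, zpow_one]
          change ((T ^ (-(k : ℤ))) (T.symm x)).1 m = _
          rw [ih]
          change x.1 (m + -(k:ℤ) - 1) = x.1 (m + (-(k:ℤ) - 1))
          rw [add_sub_assoc]
      change H7Sys.th (H7GNS.phi n) = H7Sys.th (((T ^ n : H7Sys.XS ≃ₜ H7Sys.XS) ⟨H7GNS.phi, H7Sys.phi_mem⟩).1 0)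
      rw [key, zero_add]
  · have hset : cyclicSet (H7Sys.Th H7GNS.phi) = H7Sys.YS := H7Sys.YS_eq.symm
    rintro ⟨H, i1, i2, i3, U, α, hα, hU⟩
    have hinj : Function.Injective α := by
      intro x y hxy
      exact hα.injective (by simp only [hxy])
    have hsub : ∀ y : H7Sys.YS, y.1 ∈ cyclicSet (H7Sys.Th H7GNS.phi) := by
      intro y; rw [hset]; exact y.2
    let ι : H7Sys.YS → cyclicSet (H7Sys.Th H7GNS.phi) := fun y => ⟨y.1, hsub y⟩
    have hι : Continuous ι := continuous_subtype_val.subtype_mk _
    refine H7Sys.YS_not_rep U (fun y => α (ι y)) ?_ ?_ ?_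
    · intro x y hxy
      have := hinj hxy
      exact Subtype.ext (congrArg (fun z => z.1) this)
    · intro x y hxy
      have : ι y = cyclicShift (H7Sys.Th H7GNS.phi) (ι x) := Subtype.ext hxy
      rw [this, hU]
    · intro v
      have h1 : Continuous (fun x => toWeakSpace ℂ H (α x)) := hα.continuous
      have h2 : Continuous (fun y : WeakSpace ℂ H => inner ℂ v ((toWeakSpace ℂ H).symm y)) :=
        WeakBilin.eval_continuous (topDualPairing ℂ H).flip (InnerProductSpace.toDual ℂ H v)
      exact (h2.comp h1).comp hι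

end Pool.Agent.Results.MP_4abea4_an.CyclicNotHilbert
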